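import Pool.Agent.helper55.FLD.Spec

set_option autoImplicit false

namespace Pool.Agent.FLD

open Matrix Topology Filter Pool.Agent.GO Pool.Agent.AR

/-- extension of a map along a linear map with smaller kernel -/
private theorem CA_factor {k A B C : Type} [Field k] [AddCommGroup A] [Module k A]
    [AddCommGroup B] [Module k B] [AddCommGroup C] [Module k C] (f : A →ₗ[k] B) (g : A →ₗ[k] C)
    (h : LinearMap.ker f ≤ LinearMap.ker g) : ∃ ψ : B →ₗ[k] C, ∀ x, ψ (f x) = g x := by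
  let g' : (A ⧸ LinearMap.ker f) →ₗ[k] C := (LinearMap.ker f).liftQ g h
  let g'' : LinearMap.range f →ₗ[k] C := g'.comp (f.quotKerEquivRange.symm : _ →ₗ[k] _)
  obtain ⟨ψ, hψ⟩ := LinearMap.exists_extend g''
  refine ⟨ψ, fun x => ?_⟩
  have h1 : ψ (f x) = g'' ⟨f x, LinearMap.mem_range_self f x⟩ := by
    rw [← hψ]
    rfl
  rw [h1]
  have h2 : f.quotKerEquivRange.symm ⟨f x, LinearMap.mem_range_self f x⟩ =
      (LinearMap.ker f).mkQ x := by
    rw [LinearEquiv.symm_apply_eq]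
    rfl
  show g' (f.quotKerEquivRange.symm ⟨f x, LinearMap.mem_range_self f x⟩) = g x
  rw [h2]
  exact Submodule.liftQ_apply _ _ _

/-- the coefficients of linear images of `V g M V g⁻¹` are in the algebra -/
private theorem CA_mem {n Ω G : Type} [Fintype n] [DecidableEq n] [Field Ω] [Group G]
    (V : G →* Matrix n n Ω) (M : Matrix n n Ω) (C : n → n → Matrix (Fin 2) (Fin 2) Ω) (i j : Fin 2) :
    (fun g : G => (∑ a, ∑ b, (V g * M * V g⁻¹) a b • C a b) i j) ∈ alg V := by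
  have e : (fun g : G => (∑ a, ∑ b, (V g * M * V g⁻¹) a b • C a b) i j) =
      ∑ a, ∑ b, (∑ d, (∑ c, (fun g : G => V g a c) * algebraMap Ω (G → Ω) (M c d)) *
        (fun g : G => V g⁻¹ d b)) * algebraMap Ω (G → Ω) (C a b i j) := by
    funext g
    simp only [Finset.sum_apply, Pi.mul_apply, Matrix.sum_apply, Matrix.smul_apply, smul_eq_mul,
      Matrix.mul_apply, Pi.algebraMap_apply, Algebra.algebraMap_self, RingHom.id_apply]
  rw [e]
  refine Subalgebra.sum_mem _ fun a _ => Subalgebra.sum_mem _ fun b _ => ?_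
  refine Subalgebra.mul_mem _ (Subalgebra.sum_mem _ fun d _ => ?_) (Subalgebra.algebraMap_mem _ _)
  refine Subalgebra.mul_mem _ (Subalgebra.sum_mem _ fun c _ => ?_) (coefInv_mem V d b)
  exact Subalgebra.mul_mem _ (coef_mem V a c) (Subalgebra.algebraMap_mem _ _)

theorem CA (h1 : TL_stmt) (h2 : SP_stmt) : CA_stmt := by
  intro p _ n F Ω _ _ _ _ _ _ _ G _ V ρ T h0 hadd hsm hconj hz hspan i j
  have : CharZero F := charZero_of_injective_algebraMap (algebraMap ℚ_[p] F).injective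
  obtain ⟨t1, t2, t3, t4, t5, -, -, -⟩ := h1 F
  -- the traceless part as a `ℚ_p`-linear map
  let tlL : Matrix (Fin 2) (Fin 2) F →ₗ[ℚ_[p]] Matrix (Fin 2) (Fin 2) F :=
    { toFun := tl
      map_add' := t3
      map_smul' := by
        intro c Y
        have e : ∀ Z : Matrix (Fin 2) (Fin 2) F, c • Z = (algebraMap ℚ_[p] F c) • Z := fun Z =>
          (algebraMap_smul F c Z).symm
        rw [RingHom.id_apply, e, t4, e] }
  have htlL : ∀ Y, tlL Y = tl Y := fun Y => rfl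
  let L := Submodule.span ℚ_[p] T
  let f : L →ₗ[ℚ_[p]] Matrix n n ℚ_[p] := (LinearMap.fst ℚ_[p] _ _).comp L.subtype
  let g : L →ₗ[ℚ_[p]] Matrix (Fin 2) (Fin 2) F := tlL.comp ((LinearMap.snd ℚ_[p] _ _).comp L.subtype)
  have hker : LinearMap.ker f ≤ LinearMap.ker g := by
    intro x hx
    rw [LinearMap.mem_ker] at hx ⊢
    have hx1 : x.1.1 = 0 := hx
    show tl x.1.2 = 0
    obtain ⟨k, hk⟩ := h2 p _ T h0 hadd hsm x.1 x.2
    have h3 := hz _ hk (by
      show ((p : ℚ_[p]) ^ k) • x.1.1 = 0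
      rw [hx1, smul_zero])
    have h4 : tlL (((p : ℚ_[p]) ^ k) • x.1.2) = 0 := h3
    rw [map_smul, htlL] at h4
    exact (smul_eq_zero.mp h4).resolve_left (ppow_ne k)
  obtain ⟨ψ, hψ⟩ := CA_factor f g hker
  have hψT : ∀ x ∈ T, ψ x.1 = tl x.2 := fun x hx => hψ ⟨x, Submodule.subset_span hx⟩
  let ι : ℚ_[p] →+* Ω := (algebraMap F Ω).comp (algebraMap ℚ_[p] F)
  let C : n → n → Matrix (Fin 2) (Fin 2) Ω := fun a b =>
    (ψ (Matrix.single a b 1)).map (algebraMap F Ω)
  let Ψ : Matrix n n Ω → Matrix (Fin 2) (Fin 2) Ω := fun N => ∑ a, ∑ b, N a b • C a b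
  have hΨadd : ∀ N N', Ψ (N + N') = Ψ N + Ψ N' := by
    intro N N'
    simp only [Ψ, Matrix.add_apply, add_smul, Finset.sum_add_distrib]
  have hΨsmul : ∀ (c : Ω) N, Ψ (c • N) = c • Ψ N := by
    intro c N
    simp only [Ψ, Matrix.smul_apply, smul_eq_mul, mul_smul, Finset.smul_sum]
  have hΨ0 : Ψ 0 = 0 := by simp [Ψ]
  have hΨX : ∀ X : Matrix n n ℚ_[p], Ψ (X.map ι) = (ψ X).map (algebraMap F Ω) := by
    intro X
    have hX : ψ X = ∑ a, ∑ b, X a b • ψ (Matrix.single a b 1) := by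
      conv_lhs => rw [Matrix.matrix_eq_sum_single X]
      rw [map_sum]
      refine Finset.sum_congr rfl fun a _ => ?_
      rw [map_sum]
      refine Finset.sum_congr rfl fun b _ => ?_
      rw [← map_smul, Matrix.smul_single, smul_eq_mul, mul_one]
    rw [hX]
    ext r s
    simp only [Ψ, C, Matrix.sum_apply, Matrix.smul_apply, Matrix.map_apply, map_sum, smul_eq_mul, ι,
      RingHom.comp_apply]
    refine Finset.sum_congr rfl fun a _ => Finset.sum_congr rfl fun b _ => ?_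
    rw [Algebra.smul_def, map_mul]
  have hmain : ∀ Y ∈ Submodule.span F {y | ∃ x ∈ T, tl x.2 = y}, ∃ M : Matrix n n Ω, ∀ g : G,
      (ρ g * Y * ρ g⁻¹).map (algebraMap F Ω) = Ψ ((V g).map ι * M * (V g⁻¹).map ι) := by
    intro Y hY
    induction hY using Submodule.span_induction with
    | mem y hy =>
      obtain ⟨x, hx, rfl⟩ := hy
      refine ⟨x.1.map ι, fun g => ?_⟩
      have e1 : (V g).map ι * x.1.map ι * (V g⁻¹).map ι = (V g * x.1 * V g⁻¹).map ι := by
        rw [Matrix.map_mul, Matrix.map_mul]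
      rw [e1, hΨX, hψT _ (hconj g x hx), t5]
    | zero =>
      refine ⟨0, fun g => ?_⟩
      rw [mul_zero, zero_mul, mul_zero, zero_mul, hΨ0, Matrix.map_zero _ (map_zero _)]
    | add y z _ _ hy hz' =>
      obtain ⟨M, hM⟩ := hy
      obtain ⟨M', hM'⟩ := hz'
      refine ⟨M + M', fun g => ?_⟩
      rw [mul_add, add_mul, Matrix.map_add _ (fun a b => map_add _ a b), hM, hM', mul_add, add_mul,
        hΨadd]
    | smul c y _ hy =>
      obtain ⟨M, hM⟩ := hy
      refine ⟨algebraMap F Ω c • M, fun g => ?_⟩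
      rw [mul_smul_comm, smul_mul_assoc, mul_smul_comm, smul_mul_assoc, hΨsmul, ← hM]
      ext r s
      simp only [Matrix.map_apply, Matrix.smul_apply, smul_eq_mul, map_mul]
  obtain ⟨M, hM⟩ := hmain (AR.em (Pi.single j 1)) (hspan _ (trace_em _))
  set VΩ : G →* Matrix n n Ω := (((algebraMap F Ω).comp (algebraMap ℚ_[p] F)).mapMatrix :
      Matrix n n ℚ_[p] →+* Matrix n n Ω).toMonoidHom.comp V with hVΩ
  have hV : ∀ g, VΩ g = (V g).map ι := fun g => rfl
  set ρΩ : G →* Matrix (Fin 2) (Fin 2) Ω := ((algebraMap F Ω).mapMatrix : Matrix (Fin 2) (Fin 2) F →+*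
      Matrix (Fin 2) (Fin 2) Ω).toMonoidHom.comp ρ with hρΩ
  have hρ : ∀ g, ρΩ g = (ρ g).map (algebraMap F Ω) := fun g => rfl
  have hem : (AR.em (Pi.single j 1) : Matrix (Fin 2) (Fin 2) Ω) =
      (AR.em (Pi.single j 1) : Matrix (Fin 2) (Fin 2) F).map (algebraMap F Ω) := by
    ext r s
    fin_cases r <;> fin_cases s <;> fin_cases j <;> simp [AR.em]
  have hkey : ∀ g, ρΩ g * AR.em (Pi.single j 1) * ρΩ g⁻¹ =
      ∑ a, ∑ b, (VΩ g * M * VΩ g⁻¹) a b • C a b := by
    intro g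
    rw [hρ, hρ, hem, ← Matrix.map_mul, ← Matrix.map_mul, hM g]
    rfl
  have hfun : ∀ r s : Fin 2, (fun g : G => (ρΩ g * (AR.em (Pi.single j 1) : Matrix (Fin 2) (Fin 2) Ω) * ρΩ g⁻¹) r s) ∈ alg VΩ := by
    intro r s
    have := CA_mem VΩ M C r s
    have e : (fun g : G => (ρΩ g * (AR.em (Pi.single j 1) : Matrix (Fin 2) (Fin 2) Ω) * ρΩ g⁻¹) r s) =
        fun g : G => (∑ a, ∑ b, (VΩ g * M * VΩ g⁻¹) a b • C a b) r s := by
      funext g
      rw [hkey]
    rw [e]
    exact this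
  fin_cases i
  · exact hfun 0 1
  · exact hfun 0 0
  · exact hfun 1 0

end Pool.Agent.FLD
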